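import Mathlib

/-!
# Rational-valued additive functions close to the identity
-/

set_option autoImplicit false

namespace Pool.Agent.H158R2.HJ

open Filter Topology

theorem exists_approx : ∃ f : ℕ → (ℝ →ₗ[ℚ] ℝ), (∀ m, f m 1 = 1) ∧
    (∀ m x, ∃ q : ℚ, f m x = q) ∧ ∀ x, Tendsto (fun m => f m x) atTop (𝓝 x) := by
  classical
  have hs : LinearIndepOn ℚ id ({1} : Set ℝ) := LinearIndepOn.singleton one_ne_zero
  let B := Module.Basis.extend hs
  have h1mem : (1 : ℝ) ∈ hs.extend (Set.subset_univ _) :=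
    hs.subset_extend (Set.subset_univ _) (Set.mem_singleton 1)
  have hex : ∀ (m : ℕ) (b : hs.extend (Set.subset_univ _)), ∃ q : ℚ,
      |(q : ℝ) - b| < 1 / ((m : ℝ) + 1) ∧ ((b : ℝ) = 1 → q = 1) := by
    intro m b
    have hpos : (0 : ℝ) < 1 / ((m : ℝ) + 1) := by positivity
    by_cases hb : (b : ℝ) = 1
    · exact ⟨1, by rw [hb]; simpa using hpos, fun _ => rfl⟩
    · obtain ⟨q, hq1, hq2⟩ := exists_rat_btwn (show (b : ℝ) < b + 1 / ((m : ℝ) + 1) by linarith)
      exact ⟨q, by rw [abs_lt]; constructor <;> linarith, fun h => absurd h hb⟩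
  choose t ht1 ht2 using hex
  refine ⟨fun m => B.constr ℚ (fun b => (t m b : ℝ)), ?_, ?_, ?_⟩
  · intro m
    have h1 : B ⟨1, h1mem⟩ = (1 : ℝ) := Module.Basis.extend_apply_self _ _
    have h2 : (B.constr ℚ (fun b => (t m b : ℝ))) (B ⟨1, h1mem⟩) = (t m ⟨1, h1mem⟩ : ℝ) :=
      Module.Basis.constr_basis _ _ _ _
    rw [ht2 m ⟨1, h1mem⟩ rfl, Rat.cast_one] at h2
    exact (congrArg _ h1).symm.trans h2
  · intro m x
    rw [Module.Basis.constr_apply]
    refine ⟨(B.repr x).sum fun b c => c * t m b, ?_⟩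
    rw [Finsupp.sum, Finsupp.sum]
    push_cast
    refine Finset.sum_congr rfl fun b _ => ?_
    rw [Rat.smul_def]
  · intro x
    have h1 : ∀ m, (B.constr ℚ (fun b => (t m b : ℝ))) x =
        ∑ b ∈ (B.repr x).support, (B.repr x b) • (t m b : ℝ) := by
      intro m
      rw [Module.Basis.constr_apply]
      rfl
    have h2 : x = ∑ b ∈ (B.repr x).support, (B.repr x b) • (b : ℝ) := by
      conv_lhs => rw [← B.linearCombination_repr x]
      rw [Finsupp.linearCombination_apply, Finsupp.sum]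
      refine Finset.sum_congr rfl fun b _ => ?_
      rw [Module.Basis.extend_apply_self]
    simp only [h1]
    conv => rhs; rw [h2]
    refine tendsto_finsetSum _ fun b _ => ?_
    apply Tendsto.const_smul
    rw [tendsto_iff_dist_tendsto_zero]
    refine squeeze_zero (fun m => dist_nonneg) (fun m => ?_) tendsto_one_div_add_atTop_nhds_zero_nat
    rw [Real.dist_eq]
    exact (ht1 m b).le

end Pool.Agent.H158R2.HJ
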