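import Mathlib

/-!
# A covering lemma for finite abelian groups

If a coset of `P` is covered irredundantly by `m` sets, the `i`-th of which is invariant under the
subgroup `L i`, contained in a coset of `M i`, where `L i = M i` or the index is prime and the set
is not a full coset of `M i`, then the index of the intersection of the `L i` in `P` has at most
`m - 1` prime factors.
-/

set_option autoImplicit false
set_option linter.unusedSectionVars false
set_option linter.style.haveILetI false

namespace Pool.Agent.H158R2.HJ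

open ArithmeticFunction

/-- A piece: a set invariant under `L` and contained in a coset of `M`. -/
structure Piece (X : Type*) [CommGroup X] where
  E : Set X
  M : Subgroup X
  L : Subgroup X
  le : L ≤ M
  inv : ∀ x ∈ E, ∀ l ∈ L, x * l ∈ E
  sub : ∀ x ∈ E, ∀ y ∈ E, x / y ∈ M
  prime : L = M ∨ (L.relIndex M).Prime
  ex : L = M ∨ ∀ x ∈ E, ∃ z ∉ E, z / x ∈ M

section

variable {X : Type*} [CommGroup X] [Finite X]

/-- the number of prime factors of the index of `N ⊓ P` in `P` -/
noncomputable def om (N P : Subgroup X) : ℕ := cardFactors (N.relIndex P)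

theorem relIndex_ne (N P : Subgroup X) : N.relIndex P ≠ 0 := by
  have : N.relIndex P = (N.subgroupOf P).index := rfl
  rw [this]
  exact Subgroup.index_ne_zero_of_finite

theorem om_trans (N Q P : Subgroup X) (hQ : Q ≤ P) (hN : N ⊓ P ≤ Q) :
    om N P = om N Q + om Q P := by
  unfold om
  rw [← cardFactors_mul (relIndex_ne _ _) (relIndex_ne _ _)]
  congr 1
  rw [← Subgroup.inf_relIndex_right N P, ← Subgroup.relIndex_mul_relIndex (N ⊓ P) Q P hN hQ]
  congr 1
  rw [← Subgroup.inf_relIndex_right N Q, ← Subgroup.inf_relIndex_right (N ⊓ P) Q]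
  congr 1
  rw [inf_assoc, inf_eq_right.mpr hQ]

theorem om_congr (N N' Q : Subgroup X) (h : N ⊓ Q = N' ⊓ Q) : om N Q = om N' Q := by
  unfold om
  rw [← Subgroup.inf_relIndex_right N, h, Subgroup.inf_relIndex_right]

theorem om_of_le (N Q : Subgroup X) (h : Q ≤ N) : om N Q = 0 := by
  unfold om
  rw [Subgroup.relIndex_eq_one.mpr h]
  exact cardFactors_one

/-- A proper subgroup is contained in one of prime index. -/
theorem exists_prime_index (M P : Subgroup X) (h : ¬ P ≤ M) :
    ∃ P' : Subgroup X, P ⊓ M ≤ P' ∧ P' ≤ P ∧ ¬ P ≤ P' ∧ om P' P = 1 := by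
  classical
  -- take a maximal one
  let S : Set (Subgroup X) := {Q | P ⊓ M ≤ Q ∧ Q ≤ P ∧ ¬ P ≤ Q}
  have hS : S.Finite := Set.toFinite _
  have hne : S.Nonempty := ⟨P ⊓ M, le_refl _, inf_le_left, fun h' => h (h'.trans inf_le_right)⟩
  obtain ⟨Q, hQ, hmax⟩ := hS.exists_maximal hne
  refine ⟨Q, hQ.1, hQ.2.1, hQ.2.2, ?_⟩
  -- the index is prime
  obtain ⟨x, hxP, hxQ⟩ := Set.not_subset.mp hQ.2.2
  have hprime : (Q.relIndex P).Prime := by
    let A := P ⧸ (Q.subgroupOf P)
    have hnt : Nontrivial A := by
      rw [← not_subsingleton_iff_nontrivial]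
      intro hs
      have h1 : (Q.subgroupOf P).index = 1 := by
        rw [Subgroup.index_eq_card]
        exact Nat.card_eq_one_iff_unique.mpr ⟨hs, ⟨1⟩⟩
      exact hQ.2.2 (Subgroup.relIndex_eq_one.mp h1)
    have hfin : Finite A := inferInstance
    let q := (Nat.card A).minFac
    have hcard : Nat.card A ≠ 1 := by
      have := Finite.one_lt_card_iff_nontrivial.mpr hnt
      omega
    have hq : q.Prime := Nat.minFac_prime hcard
    haveI : Fact q.Prime := ⟨hq⟩
    obtain ⟨a, ha⟩ := exists_prime_orderOf_dvd_card' (G := A) q (Nat.minFac_dvd _)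
    obtain ⟨b, rfl⟩ := QuotientGroup.mk_surjective a
    -- the subgroup generated by Q and b
    have hb : (b : X) ∉ Q := by
      intro hb
      have : (QuotientGroup.mk b : A) = 1 := (QuotientGroup.eq_one_iff b).mpr hb
      rw [this, orderOf_one] at ha
      exact hq.one_lt.ne ha
    have htop : Q ⊔ Subgroup.zpowers (b : X) = P := by
      by_contra hne'
      have hle : Q ⊔ Subgroup.zpowers (b : X) ≤ P :=
        sup_le hQ.2.1 (Subgroup.zpowers_le.mpr b.2)
      have hmem : Q ⊔ Subgroup.zpowers (b : X) ∈ S :=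
        ⟨hQ.1.trans le_sup_left, hle, fun h' => hne' (le_antisymm hle h')⟩
      have := hmax hmem le_sup_left
      exact hb (this (le_sup_right (a := Q) (Subgroup.mem_zpowers (b : X))))
    have hgen : ∀ y : A, y ∈ Subgroup.zpowers (QuotientGroup.mk b : A) := by
      intro y
      obtain ⟨c, rfl⟩ := QuotientGroup.mk_surjective y
      have hc : (c : X) ∈ Q ⊔ Subgroup.zpowers (b : X) := by rw [htop]; exact c.2
      obtain ⟨u, hu, v, hv, huv⟩ := Subgroup.mem_sup.mp hc
      obtain ⟨k, rfl⟩ := Subgroup.mem_zpowers_iff.mp hv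
      refine Subgroup.mem_zpowers_iff.mpr ⟨k, ?_⟩
      rw [← QuotientGroup.mk_zpow]
      rw [QuotientGroup.eq]
      rw [Subgroup.mem_subgroupOf]
      have : ((b ^ k)⁻¹ * c : P).val = u := by
        push_cast
        rw [← huv]
        rw [mul_comm u, inv_mul_cancel_left]
      rw [this]
      exact hu
    have hA : Nat.card A = q := by
      have h1 : Nat.card (Subgroup.zpowers (QuotientGroup.mk b : A)) = q := by
        rw [Nat.card_zpowers, ha]
      rw [← h1]
      have h2 : Subgroup.zpowers (QuotientGroup.mk b : A) = ⊤ := by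
        rw [Subgroup.eq_top_iff']
        exact hgen
      rw [h2, Nat.card_congr Subgroup.topEquiv.toEquiv]
    have : Q.relIndex P = Nat.card A := Subgroup.index_eq_card _
    rw [this, hA]
    exact hq
  unfold om
  exact cardFactors_apply_prime hprime

/-! ### Covers -/

/-- the pieces with index in `I` cover the coset `y P` -/
def Cov {ι : Type*} (p : ι → Piece X) (P : Subgroup X) (y : X) (I : Finset ι) : Prop :=
  ∀ u ∈ P, ∃ i ∈ I, y * u ∈ (p i).E

/-- irredundant cover -/
def Irr {ι : Type*} [DecidableEq ι] (p : ι → Piece X) (P : Subgroup X) (y : X) (I : Finset ι) :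
    Prop := Cov p P y I ∧ ∀ j ∈ I, ¬ Cov p P y (I.erase j)

theorem exists_irr {ι : Type*} [DecidableEq ι] (p : ι → Piece X) (P : Subgroup X) (y : X)
    (I : Finset ι) (h : Cov p P y I) : ∃ J ⊆ I, Irr p P y J := by
  classical
  obtain ⟨J, hJ, hmin⟩ := Finset.exists_min_image (I.powerset.filter (fun J => Cov p P y J))
    Finset.card ⟨I, by simpa using h⟩
  rw [Finset.mem_filter, Finset.mem_powerset] at hJ
  refine ⟨J, hJ.1, hJ.2, ?_⟩
  intro j hj hc
  have h1 := hmin (J.erase j) (by
    rw [Finset.mem_filter, Finset.mem_powerset]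
    exact ⟨(Finset.erase_subset _ _).trans hJ.1, hc⟩)
  have h2 := Finset.card_erase_lt_of_mem hj
  omega

/-- intersection of the invariance groups -/
noncomputable def NL {ι : Type*} (p : ι → Piece X) (I : Finset ι) : Subgroup X :=
  I.inf (fun i => (p i).L)

theorem NL_le {ι : Type*} (p : ι → Piece X) (I : Finset ι) (i : ι) (h : i ∈ I) :
    NL p I ≤ (p i).L := Finset.inf_le h

theorem NL_mono {ι : Type*} (p : ι → Piece X) (I J : Finset ι) (h : J ⊆ I) :
    NL p I ≤ NL p J := Finset.inf_mono h

theorem le_NL {ι : Type*} (p : ι → Piece X) (I : Finset ι) (Q : Subgroup X)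
    (h : ∀ i ∈ I, Q ≤ (p i).L) : Q ≤ NL p I := Finset.le_inf h

/-- the extension procedure -/
theorem proc {ι : Type*} [DecidableEq ι] (p : ι → Piece X) (m : ℕ)
    (IH : ∀ (I' : Finset ι) (Q : Subgroup X) (z : X), I'.card < m → Irr p Q z I' →
      om (NL p I') Q + 1 ≤ I'.card)
    (P : Subgroup X) (y : X) (I : Finset ι) (hI : I.card = m) (hirr : Irr p P y I) :
    ∀ (k : ℕ) (J : Finset ι) (Q : Subgroup X), J ⊆ I → J.Nonempty → (I \ J).card = k → 0 < k →
      Q ≤ P → Q ≤ NL p J → om (NL p I) Q + 1 ≤ k := by
  intro k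
  induction k using Nat.strong_induction_on with
  | _ k ih =>
  intro J Q hJI hJ hk hk0 hQP hQJ
  obtain ⟨i, hi⟩ := Finset.card_pos.mp (hk ▸ hk0)
  rw [Finset.mem_sdiff] at hi
  have h1 := hirr.2 i hi.1
  unfold Cov at h1
  push Not at h1
  obtain ⟨u, hu, hz⟩ := h1
  -- the coset of `Q` at `y * u` is covered by the remaining pieces
  have hcov : Cov p Q (y * u) (I \ J) := by
    intro q hq
    obtain ⟨j, hj, hjE⟩ := hirr.1 (u * q) (P.mul_mem hu (hQP hq))
    refine ⟨j, ?_, by rwa [mul_assoc]⟩
    rw [Finset.mem_sdiff]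
    refine ⟨hj, fun hjJ => ?_⟩
    have h2 : y * u ∉ (p j).E := by
      apply hz j
      rw [Finset.mem_erase]
      exact ⟨fun h => hi.2 (h ▸ hjJ), hj⟩
    apply h2
    have h3 := (p j).inv _ hjE q⁻¹ ((p j).L.inv_mem ((NL_le p J j hjJ) (hQJ hq)))
    rwa [← mul_assoc, mul_inv_cancel_right] at h3
  obtain ⟨I', hI'sub, hI'⟩ := exists_irr p Q (y * u) _ hcov
  have hcard1 : (I \ J).card + J.card = I.card := Finset.card_sdiff_add_card_eq_card hJI
  have hJpos : 0 < J.card := Finset.card_pos.mpr hJ
  have hI'le : I'.card ≤ (I \ J).card := Finset.card_le_card hI'sub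
  have h4 := IH I' Q (y * u) (by omega) hI'
  have hI'I : I' ⊆ I := hI'sub.trans Finset.sdiff_subset
  have h5 : om (NL p I) Q = om (NL p I) (Q ⊓ NL p I') + om (NL p I') Q := by
    rw [om_trans (NL p I) (Q ⊓ NL p I') Q inf_le_left
      (le_inf inf_le_right (inf_le_left.trans (NL_mono p I I' hI'I)))]
    congr 1
    apply om_congr
    rw [inf_comm Q, inf_assoc, inf_idem]
  by_cases hfull : (I \ (J ∪ I')).card = 0
  · have h6 : om (NL p I) (Q ⊓ NL p I') = 0 := by
      apply om_of_le
      apply le_NL
      intro i' hi'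
      have h7 : i' ∈ J ∪ I' := by
        by_contra h8
        have : i' ∈ I \ (J ∪ I') := Finset.mem_sdiff.mpr ⟨hi', h8⟩
        rw [Finset.card_eq_zero.mp hfull] at this
        simp at this
      rcases Finset.mem_union.mp h7 with h8 | h8
      · exact inf_le_left.trans (hQJ.trans (NL_le p J i' h8))
      · exact inf_le_right.trans (NL_le p I' i' h8)
    omega
  · have h7 : (I \ (J ∪ I')).card + I'.card = (I \ J).card := by
      have h8 : I \ (J ∪ I') = (I \ J) \ I' := by
        ext a
        simp only [Finset.mem_sdiff, Finset.mem_union]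
        tauto
      rw [h8]
      exact Finset.card_sdiff_add_card_eq_card hI'sub
    have h6 := ih (I \ (J ∪ I')).card (by omega) (J ∪ I') (Q ⊓ NL p I')
      (Finset.union_subset hJI hI'I) (hJ.mono Finset.subset_union_left) rfl (by omega)
      (inf_le_left.trans hQP) (by
        apply le_NL
        intro i' hi'
        rcases Finset.mem_union.mp hi' with h8 | h8
        · exact inf_le_left.trans (hQJ.trans (NL_le p J i' h8))
        · exact inf_le_right.trans (NL_le p I' i' h8))
    omega

/-- **The covering lemma.** -/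
theorem cover_main {ι : Type*} [DecidableEq ι] (p : ι → Piece X) :
    ∀ (m : ℕ) (I : Finset ι) (P : Subgroup X) (y : X), I.card = m → Irr p P y I →
      om (NL p I) P + 1 ≤ m := by
  intro m
  induction m using Nat.strong_induction_on with
  | _ m ih =>
  intro I P y hI hirr
  have IH : ∀ (I' : Finset ι) (Q : Subgroup X) (z : X), I'.card < m → Irr p Q z I' →
      om (NL p I') Q + 1 ≤ I'.card := fun I' Q z h h' => ih _ h I' Q z rfl h'
  have hpr := proc p m IH P y I hI hirr
  -- a member of `I`
  obtain ⟨i0, hi0, hi0E⟩ := hirr.1 1 P.one_mem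
  rw [mul_one] at hi0E
  have hm0 : 0 < m := hI ▸ Finset.card_pos.mpr ⟨i0, hi0⟩
  by_cases hm1 : m = 1
  · -- one piece
    have hI1 : I = {i0} := by
      rw [hm1, Finset.card_eq_one] at hI
      obtain ⟨a, rfl⟩ := hI
      rw [Finset.mem_singleton] at hi0
      rw [hi0]
    have hall : ∀ u ∈ P, y * u ∈ (p i0).E := by
      intro u hu
      obtain ⟨i, hi, h⟩ := hirr.1 u hu
      rw [hI1, Finset.mem_singleton] at hi
      rwa [hi] at h
    have hPM : P ≤ (p i0).M := by
      intro u hu
      have := (p i0).sub _ (hall u hu) _ hi0E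
      rwa [mul_div_cancel_left] at this
    have hPL : P ≤ (p i0).L := by
      rcases (p i0).prime with h | hp
      · rw [h]; exact hPM
      · by_contra hne
        have hLM : (p i0).L ≠ (p i0).M := by
          intro h
          rw [h, Subgroup.relIndex_self] at hp
          exact Nat.not_prime_one hp
        have h1 := Subgroup.relIndex_mul_relIndex (p i0).L ((p i0).L ⊔ P) (p i0).M le_sup_left
          (sup_le (p i0).le hPM)
        have h2 : (p i0).M ≤ (p i0).L ⊔ P := by
          rcases (Nat.dvd_prime hp).mp (Dvd.intro _ h1) with h | h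
          · exact absurd (le_sup_right.trans (Subgroup.relIndex_eq_one.mp h)) hne
          · rw [h] at h1
            have h3 : ((p i0).L ⊔ P).relIndex (p i0).M = 1 := by
              have := hp.pos
              nlinarith
            exact Subgroup.relIndex_eq_one.mp h3
        obtain ⟨z, hz, hzM⟩ := ((p i0).ex.resolve_left hLM) y hi0E
        obtain ⟨l, hl, u, hu, hlu⟩ := Subgroup.mem_sup.mp (h2 hzM)
        apply hz
        have h4 := (p i0).inv _ (hall u hu) l hl
        have h5 : y * u * l = z := by
          rw [mul_assoc, mul_comm u l, hlu]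
          exact mul_div_cancel y z
        rwa [h5] at h4
    have : om (NL p I) P = 0 := by
      apply om_of_le
      apply le_NL
      intro i hi
      rw [hI1, Finset.mem_singleton] at hi
      rwa [hi]
    omega
  · have hm2 : 2 ≤ m := by omega
    by_cases hA : ∃ i ∈ I, ¬ P ≤ (p i).M
    · -- case A
      obtain ⟨i, hi, hPM⟩ := hA
      obtain ⟨P', hP'1, hP'2, hP'3, hP'4⟩ := exists_prime_index (p i).M P hPM
      obtain ⟨w, hwP, hwP'⟩ := Set.not_subset.mp hP'3
      have hz : ∃ z0 ∈ P, ∀ u ∈ P', y * z0 * u ∉ (p i).E := by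
        by_cases h : ∃ u0 ∈ P', y * u0 ∈ (p i).E
        · obtain ⟨u0, hu0, hu0E⟩ := h
          refine ⟨w, hwP, fun u hu hE => hwP' ?_⟩
          have h1 := (p i).sub _ hE _ hu0E
          have h2 : y * w * u / (y * u0) = w * u / u0 := by
            rw [mul_assoc, mul_div_mul_left_eq_div]
          rw [h2] at h1
          have h3 : w * u / u0 ∈ P' := hP'1 ⟨P.div_mem (P.mul_mem hwP (hP'2 hu)) (hP'2 hu0), h1⟩
          have h4 := P'.mul_mem h3 (P'.mul_mem hu0 (P'.inv_mem hu))
          have h5 : w * u / u0 * (u0 * u⁻¹) = w := by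
            rw [← mul_assoc, div_mul_cancel, mul_inv_cancel_right]
          rwa [h5] at h4
        · push Not at h
          exact ⟨1, P.one_mem, fun u hu => by rw [mul_one]; exact h u hu⟩
      obtain ⟨z0, hz0, hzE⟩ := hz
      have hcov : Cov p P' (y * z0) (I.erase i) := by
        intro u hu
        obtain ⟨j, hj, hjE⟩ := hirr.1 (z0 * u) (P.mul_mem hz0 (hP'2 hu))
        refine ⟨j, ?_, by rwa [mul_assoc]⟩
        rw [Finset.mem_erase]
        refine ⟨?_, hj⟩
        rintro rfl
        rw [← mul_assoc] at hjE
        exact hzE u hu hjE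
      obtain ⟨I', hI'sub, hI'⟩ := exists_irr p P' (y * z0) _ hcov
      have hI'I : I' ⊆ I := hI'sub.trans (Finset.erase_subset _ _)
      have hiI' : i ∉ I' := fun h => by
        have := hI'sub h
        simp at this
      have hc1 : I'.card < m := by
        rw [← hI]
        exact Finset.card_lt_card ⟨hI'I, fun h => hiI' (h hi)⟩
      have h1 := IH I' P' (y * z0) hc1 hI'
      have hc2 : (I \ I').card + I'.card = I.card := Finset.card_sdiff_add_card_eq_card hI'I
      have h2 := hpr (I \ I').card I' (P' ⊓ NL p I') hI'I (Finset.card_pos.mp (by omega)) rfl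
        (by omega) (inf_le_left.trans hP'2) inf_le_right
      have h3 : om (NL p I) P = om (NL p I) P' + om P' P := by
        apply om_trans _ _ _ hP'2
        exact le_trans (le_inf inf_le_right (inf_le_left.trans ((NL_le p I i hi).trans (p i).le)))
          hP'1
      have h4 : om (NL p I) P' = om (NL p I) (P' ⊓ NL p I') + om (NL p I') P' := by
        rw [om_trans (NL p I) (P' ⊓ NL p I') P' inf_le_left
          (le_inf inf_le_right (inf_le_left.trans (NL_mono p I I' hI'I)))]
        congr 1
        apply om_congr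
        rw [inf_comm P', inf_assoc, inf_idem]
      omega
    · -- case B
      push Not at hA
      have hPM := hA i0 hi0
      have hz : ∃ u ∈ P, y * u ∉ (p i0).E := by
        by_contra hall
        push Not at hall
        obtain ⟨j, hj, hji⟩ := Finset.exists_mem_ne (s := I) (by omega) i0
        exact hirr.2 j hj (fun u hu => ⟨i0, Finset.mem_erase.mpr ⟨hji.symm, hi0⟩, hall u hu⟩)
      obtain ⟨u0, hu0, hu0E⟩ := hz
      have hPL : ¬ P ≤ (p i0).L := fun h => hu0E ((p i0).inv _ hi0E u0 (h hu0))
      have hLM : (p i0).L ≠ (p i0).M := fun h => hPL (h ▸ hPM)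
      have hp := (p i0).prime.resolve_left hLM
      have h1 := Subgroup.relIndex_mul_relIndex (p i0).L ((p i0).L ⊔ P) (p i0).M le_sup_left
          (sup_le (p i0).le hPM)
      have h2 : ((p i0).L ⊔ P).relIndex (p i0).M = 1 := by
        rcases (Nat.dvd_prime hp).mp (Dvd.intro _ h1) with h | h
        · exact absurd (le_sup_right.trans (Subgroup.relIndex_eq_one.mp h)) hPL
        · rw [h] at h1
          have := hp.pos
          nlinarith
      have h3 : (p i0).L.relIndex P = (p i0).L.relIndex (p i0).M := by
        rw [← h1, h2, mul_one, Subgroup.relIndex_sup_left]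
      have h4 : om (p i0).L P = 1 := by
        unfold om
        rw [h3]
        exact cardFactors_apply_prime hp
      -- the coset of `P ⊓ L`
      have hcov : Cov p (P ⊓ (p i0).L) (y * u0) (I.erase i0) := by
        rintro u ⟨huP, huL⟩
        obtain ⟨j, hj, hjE⟩ := hirr.1 (u0 * u) (P.mul_mem hu0 huP)
        refine ⟨j, ?_, by rwa [mul_assoc]⟩
        rw [Finset.mem_erase]
        refine ⟨?_, hj⟩
        rintro rfl
        apply hu0E
        have h5 := (p j).inv _ hjE u⁻¹ ((p j).L.inv_mem huL)
        rwa [← mul_assoc, mul_inv_cancel_right] at h5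
      obtain ⟨I', hI'sub, hI'⟩ := exists_irr p _ _ _ hcov
      have hI'I : I' ⊆ I := hI'sub.trans (Finset.erase_subset _ _)
      have hiI' : i0 ∉ I' := fun h => by
        have := hI'sub h
        simp at this
      have hc1 : I'.card < m := by
        rw [← hI]
        exact Finset.card_lt_card ⟨hI'I, fun h => hiI' (h hi0)⟩
      have h5 := IH I' _ _ hc1 hI'
      have h6 : om (NL p I) P = om (NL p I) (P ⊓ (p i0).L) + om (p i0).L P := by
        rw [om_trans (NL p I) (P ⊓ (p i0).L) P inf_le_left
          (le_inf inf_le_right (inf_le_left.trans (NL_le p I i0 hi0)))]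
        congr 1
        apply om_congr
        rw [inf_comm P, inf_assoc, inf_idem]
      have h7 : om (NL p I) (P ⊓ (p i0).L) = om (NL p I) (P ⊓ (p i0).L ⊓ NL p I') +
          om (NL p I') (P ⊓ (p i0).L) := by
        rw [om_trans (NL p I) (P ⊓ (p i0).L ⊓ NL p I') (P ⊓ (p i0).L) inf_le_left
          (le_inf inf_le_right (inf_le_left.trans (NL_mono p I I' hI'I)))]
        congr 1
        apply om_congr
        rw [inf_comm (P ⊓ (p i0).L), inf_assoc, inf_idem]
      have hJ : ∀ i ∈ insert i0 I', P ⊓ (p i0).L ⊓ NL p I' ≤ (p i).L := by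
        intro i hi
        rcases Finset.mem_insert.mp hi with rfl | hi
        · exact inf_le_left.trans inf_le_right
        · exact inf_le_right.trans (NL_le p I' i hi)
      have hJI : insert i0 I' ⊆ I := Finset.insert_subset hi0 hI'I
      have hc3 : (insert i0 I').card = I'.card + 1 := Finset.card_insert_of_notMem hiI'
      have hc2 : (I \ insert i0 I').card + (insert i0 I').card = I.card :=
        Finset.card_sdiff_add_card_eq_card hJI
      by_cases hfull : (I \ insert i0 I').card = 0
      · have h8 : om (NL p I) (P ⊓ (p i0).L ⊓ NL p I') = 0 := by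
          apply om_of_le
          apply le_NL
          intro i hi
          apply hJ
          by_contra h9
          have : i ∈ I \ insert i0 I' := Finset.mem_sdiff.mpr ⟨hi, h9⟩
          rw [Finset.card_eq_zero.mp hfull] at this
          simp at this
        omega
      · have h8 := hpr (I \ insert i0 I').card (insert i0 I') (P ⊓ (p i0).L ⊓ NL p I') hJI
          (Finset.insert_nonempty _ _) rfl (by omega) (inf_le_left.trans inf_le_left)
          (le_NL p _ _ hJ)
        omega

end

end Pool.Agent.H158R2.HJ
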