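import Pool.Agent.H158R2.HJ.Cover

/-!
# Hajos' theorem for finite abelian groups (cyclic subsets of prime order)
-/

set_option autoImplicit false
set_option linter.unusedSectionVars false
set_option linter.style.haveILetI false

namespace Pool.Agent.H158R2.HJ

open ArithmeticFunction

/-- The product of the elements `a i ^ k i`. -/
def facMap {G ι : Type*} [CommGroup G] [Fintype ι] (p : ι → ℕ) (a : ι → G)
    (k : ∀ i, Fin (p i)) : G := ∏ i, a i ^ (k i : ℕ)

section

variable {G ι : Type*} [CommGroup G] [Finite G] [Fintype ι]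

theorem exists_char_root (p : ι → ℕ) (a : ι → G) (hp : ∀ i, (p i).Prime)
    (hbij : Function.Bijective (facMap p a)) (χ : G →* ℂˣ) (hχ : χ ≠ 1) :
    ∃ i, χ (a i) ^ p i = 1 ∧ χ (a i) ≠ 1 := by
  classical
  haveI : Fintype G := Fintype.ofFinite G
  -- the sum of a nontrivial character vanishes
  have hsum : ∑ g : G, ((χ g : ℂˣ) : ℂ) = 0 := by
    obtain ⟨g0, hg0⟩ : ∃ g0, χ g0 ≠ 1 := by
      by_contra h
      push Not at h
      exact hχ (MonoidHom.ext h)
    have h1 : ∑ g : G, ((χ g : ℂˣ) : ℂ) = (χ g0 : ℂ) * ∑ g : G, ((χ g : ℂˣ) : ℂ) := by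
      rw [Finset.mul_sum]
      exact (Fintype.sum_equiv (Equiv.mulLeft g0) (fun g => (χ g0 : ℂ) * ((χ g : ℂˣ) : ℂ))
        (fun g => ((χ g : ℂˣ) : ℂ)) (fun g => by simp [map_mul])).symm
    have h2 : (1 - (χ g0 : ℂ)) * ∑ g : G, ((χ g : ℂˣ) : ℂ) = 0 := by
      rw [sub_mul, one_mul, ← h1, sub_self]
    rcases mul_eq_zero.mp h2 with h3 | h3
    · exfalso
      apply hg0
      have : (χ g0 : ℂ) = 1 := (sub_eq_zero.mp h3).symm
      exact Units.ext this
    · exact h3
  have h1 : ∏ i, ∑ s : Fin (p i), ((χ (a i) : ℂˣ) : ℂ) ^ (s : ℕ) = 0 := by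
    rw [Finset.prod_univ_sum, Fintype.piFinset_univ]
    rw [← hsum, ← (Equiv.ofBijective _ hbij).sum_comp]
    refine Finset.sum_congr rfl fun k _ => ?_
    simp only [Equiv.ofBijective_apply, facMap, map_prod, map_pow, Units.coe_prod,
      Units.val_pow_eq_pow_val]
  obtain ⟨i, _, hi⟩ := Finset.prod_eq_zero_iff.mp h1
  rw [Fin.sum_univ_eq_sum_range (fun s => ((χ (a i) : ℂˣ) : ℂ) ^ s)] at hi
  have hne : χ (a i) ≠ 1 := by
    intro h
    rw [h] at hi
    simp at hi
    exact (hp i).ne_zero hi
  refine ⟨i, ?_, hne⟩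
  have h2 := geom_sum_mul ((χ (a i) : ℂˣ) : ℂ) (p i)
  rw [hi, zero_mul] at h2
  have h3 := (sub_eq_zero.mp h2.symm)
  apply Units.ext
  rw [Units.val_pow_eq_pow_val, Units.val_one]
  exact h3

/-- divisibility of the order of a subgroup containing some of the factors -/
theorem prod_dvd_card (p : ι → ℕ) (a : ι → G) (hp : ∀ i, (p i).Prime)
    (hbij : Function.Bijective (facMap p a)) (K : Subgroup G) (I : Finset ι)
    (hI : ∀ i ∈ I, a i ∈ K) : ∏ i ∈ I, p i ∣ Nat.card K := by
  classical
  -- `K ≃ (∀ i : I, Fin (p i)) × {k' : ∀ i : Iᶜ, Fin (p i) // ∏ a i ^ k' i ∈ K}`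
  let e1 := Equiv.piEquivPiSubtypeProd (fun i => i ∈ I) (fun i => Fin (p i))
  have hsplit : ∀ k : (∀ i, Fin (p i)), facMap p a k =
      (∏ i : {i // i ∈ I}, a i ^ ((e1 k).1 i : ℕ)) * ∏ i : {i // i ∉ I}, a i ^ ((e1 k).2 i : ℕ) := by
    intro k
    unfold facMap
    rw [← Fintype.prod_subtype_mul_prod_subtype (fun i => i ∈ I)]
    congr 1
    exact Finset.prod_congr (Finset.ext fun x => by simp) fun x _ => rfl
  have hmem : ∀ k : (∀ i, Fin (p i)), facMap p a k ∈ K ↔
      (∏ i : {i // i ∉ I}, a i ^ ((e1 k).2 i : ℕ)) ∈ K := by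
    intro k
    rw [hsplit]
    apply K.mul_mem_cancel_left
    exact K.prod_mem fun i _ => K.pow_mem (hI i.1 i.2) _
  let S := {k' : ∀ i : {i // i ∉ I}, Fin (p i) // (∏ i : {i // i ∉ I}, a i ^ (k' i : ℕ)) ∈ K}
  have e2 : K ≃ (∀ i : {i // i ∈ I}, Fin (p i)) × S := by
    refine ((Equiv.ofBijective _ hbij).symm.subtypeEquiv (q := fun k => facMap p a k ∈ K) ?_).trans
      ((e1.subtypeEquiv (q := fun x => (∏ i : {i // i ∉ I}, a i ^ (x.2 i : ℕ)) ∈ K) hmem).trans ?_)
    · intro g
      have := Equiv.ofBijective_apply_symm_apply _ hbij g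
      rw [this]
    · exact
        { toFun := fun x => (x.1.1, ⟨x.1.2, x.2⟩)
          invFun := fun x => ⟨(x.1, x.2.1), x.2.2⟩
          left_inv := fun x => rfl
          right_inv := fun x => rfl }
  rw [Nat.card_congr e2, Nat.card_prod, Nat.card_pi]
  apply Dvd.intro
  congr 1
  rw [← Finset.prod_coe_sort]
  refine Finset.prod_congr rfl fun i _ => ?_
  rw [Nat.card_eq_fintype_card, Fintype.card_fin]

/-- restriction to a sub-family which fills a subgroup -/
theorem sub_bijective (p : ι → ℕ) (a : ι → G) (hp : ∀ i, (p i).Prime)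
    (hbij : Function.Bijective (facMap p a)) (K : Subgroup G) (I : Finset ι)
    (hI : ∀ i ∈ I, a i ∈ K) (hcard : Nat.card K = ∏ i ∈ I, p i) :
    Function.Bijective (facMap (fun i : I => p i) (fun i : I => (⟨a i, hI i i.2⟩ : K))) := by
  classical
  haveI : Fintype K := Fintype.ofFinite K
  rw [Fintype.bijective_iff_injective_and_card]
  constructor
  · intro k k' h
    -- extend by zero
    let E : (∀ i : I, Fin (p i)) → ∀ i, Fin (p i) := fun k i =>
      if h : i ∈ I then k ⟨i, h⟩ else ⟨0, (hp i).pos⟩
    have hE : ∀ k, facMap p a (E k) =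
        ((facMap (fun i : I => p i) (fun i : I => (⟨a i, hI i i.2⟩ : K)) k : K) : G) := by
      intro k
      have h0 : ((facMap (fun i : I => p i) (fun i : I => (⟨a i, hI i i.2⟩ : K)) k : K) : G) =
          ∏ i : I, a i ^ (E k i : ℕ) := by
        unfold facMap
        rw [← K.subtype_apply, map_prod]
        refine Finset.prod_congr rfl fun i _ => ?_
        simp [E]
      rw [h0, Finset.prod_coe_sort I (fun i => a i ^ (E k i : ℕ))]
      unfold facMap
      symm
      apply Finset.prod_subset (Finset.subset_univ _)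
      intro i _ hi
      simp [E, hi]
    have h1 : E k = E k' := by
      apply hbij.1
      rw [hE, hE, h]
    funext i
    have h2 := congrFun h1 i
    simp only [E, i.2, dif_pos] at h2
    exact h2
  · rw [← Nat.card_eq_fintype_card, ← Nat.card_eq_fintype_card, Nat.card_pi, hcard,
      ← Finset.prod_coe_sort I p]
    refine Finset.prod_congr rfl fun i _ => ?_
    rw [Nat.card_eq_fintype_card, Fintype.card_fin]

end

/-- characters vanishing on a set generate the annihilator; its index -/
theorem index_annih {G : Type*} [CommGroup G] [Finite G] (K : Subgroup G) :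
    (MonoidHom.domRestrictHom K ℂˣ).ker.index = Nat.card K := by
  rw [Subgroup.index_ker]
  have h1 : (MonoidHom.domRestrictHom K ℂˣ).range = ⊤ := by
    rw [MonoidHom.range_eq_top]
    exact MonoidHom.domRestrict_surjective ℂ K
  rw [h1, Nat.card_congr Subgroup.topEquiv.toEquiv]
  exact CommGroup.card_monoidHom_of_hasEnoughRootsOfUnity K ℂ

/-- The piece of characters equal to `1` at `b`. -/
def pcOne {G : Type*} [CommGroup G] (b : G) : Piece (G →* ℂˣ) where
  E := {χ | χ b = 1}
  M := (MonoidHom.eval b).ker
  L := (MonoidHom.eval b).ker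
  le := le_refl _
  inv := by
    intro x hx l hl
    rw [MonoidHom.mem_ker] at hl
    simp only [MonoidHom.eval_apply_apply] at hl
    simp only [Set.mem_ofPred_eq, MonoidHom.mul_apply] at hx ⊢
    rw [hx, hl, one_mul]
  sub := by
    intro x hx y hy
    rw [MonoidHom.mem_ker]
    simp only [Set.mem_ofPred_eq] at hx hy
    simp [hx, hy]
  prime := Or.inl rfl
  ex := Or.inl rfl

/-- The piece of characters which map `a` to a primitive `q`-th root of unity. -/
def pcRoot {G : Type*} [CommGroup G] (a : G) (q : ℕ) (hq : q.Prime) : Piece (G →* ℂˣ) where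
  E := {χ | χ a ^ q = 1 ∧ χ a ≠ 1}
  M := (MonoidHom.eval (a ^ q)).ker
  L := (MonoidHom.eval a).ker
  le := by
    intro x hx
    have hx' : x a = 1 := hx
    change x (a ^ q) = 1
    rw [map_pow, hx', one_pow]
  inv := by
    intro x hx l hl
    have hl' : l a = 1 := hl
    simp only [Set.mem_ofPred_eq, MonoidHom.mul_apply] at hx ⊢
    rw [hl', mul_one]
    exact hx
  sub := by
    intro x hx y hy
    change (x / y) (a ^ q) = 1
    simp only [Set.mem_ofPred_eq] at hx hy
    simp [hx.1, hy.1]
  prime := by
    rw [Subgroup.relIndex_ker]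
    have h1 : Subgroup.map (MonoidHom.eval a) (MonoidHom.eval (a ^ q)).ker ≤
        rootsOfUnity q ℂ := by
      rintro z ⟨x, hx, rfl⟩
      have hx' : x (a ^ q) = 1 := hx
      rw [mem_rootsOfUnity]
      rw [map_pow] at hx'
      exact hx'
    haveI : NeZero q := ⟨hq.ne_zero⟩
    have h2 := Subgroup.card_dvd_of_le h1
    rw [Complex.card_rootsOfUnity] at h2
    rcases (Nat.dvd_prime hq).mp h2 with h | h
    · left
      apply le_antisymm
      · intro x hx
        have hx' : x a = 1 := hx
        change x (a ^ q) = 1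
        rw [map_pow, hx', one_pow]
      · rw [← Subgroup.relIndex_eq_one, Subgroup.relIndex_ker]
        exact h
    · right
      rw [h]
      exact hq
  ex := by
    right
    intro x hx
    refine ⟨1, ?_, ?_⟩
    · simp
    · change (1 / x) (a ^ q) = 1
      simp only [Set.mem_ofPred_eq] at hx
      simp [hx.1]

/-- **Hajos' theorem** for cyclic subsets of prime order. -/
theorem hajos_prime.{u, v} : ∀ (n : ℕ) (G : Type u) [CommGroup G] [Finite G] (ι : Type v)
    [Fintype ι] (p : ι → ℕ) (a : ι → G), Fintype.card ι = n → 0 < n → (∀ i, (p i).Prime) →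
    Function.Bijective (facMap p a) → ∃ i, a i ^ p i = 1 := by
  intro n
  induction n using Nat.strong_induction_on with
  | _ n ih =>
  intro G _ _ ι _ p a hn hn0 hp hbij
  classical
  obtain ⟨i0⟩ : Nonempty ι := Fintype.card_pos_iff.mp (hn ▸ hn0)
  by_cases hb : a i0 ^ p i0 = 1
  · exact ⟨i0, hb⟩
  haveI : Finite (G →* ℂˣ) := by
    have := CommGroup.card_monoidHom_of_hasEnoughRootsOfUnity G ℂ
    exact Nat.finite_of_card_ne_zero (by rw [this]; exact Nat.card_pos.ne')
  let pc : Option ι → Piece (G →* ℂˣ) := fun o =>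
    o.elim (pcOne (a i0 ^ p i0)) (fun i => pcRoot (a i) (p i) (hp i))
  have hcov : Cov pc ⊤ 1 (insert none ((Finset.univ.erase i0).map Function.Embedding.some)) := by
    intro χ _
    have h0 : (1 : G →* ℂˣ) * χ = χ := one_mul χ
    rw [h0]
    by_cases hχ : χ = 1
    · refine ⟨none, Finset.mem_insert_self _ _, ?_⟩
      change χ (a i0 ^ p i0) = 1
      rw [hχ]
      rfl
    · obtain ⟨i, hi1, hi2⟩ := exists_char_root p a hp hbij χ hχ
      by_cases hi : i = i0
      · refine ⟨none, Finset.mem_insert_self _ _, ?_⟩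
        change χ (a i0 ^ p i0) = 1
        rw [map_pow, ← hi]
        exact hi1
      · refine ⟨some i, Finset.mem_insert_of_mem ?_, ?_⟩
        · simp [hi]
        · exact ⟨hi1, hi2⟩
  obtain ⟨J, hJsub, hJ⟩ := exists_irr pc ⊤ 1 _ hcov
  -- the indices which occur
  let I : Finset ι := Finset.univ.filter (fun i => some i ∈ J)
  have hi0 : i0 ∉ I := by
    intro h
    have h1 := (Finset.mem_filter.mp h).2
    have h2 := hJsub h1
    simp at h2
  have hJeq : J = insert none (I.map Function.Embedding.some) := by
    ext o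
    rcases o with _ | i
    · simp only [Finset.mem_insert, true_or, iff_true]
      obtain ⟨o, ho, hoE⟩ := hJ.1 1 (Subgroup.mem_top _)
      rcases o with _ | i
      · exact ho
      · exfalso
        have h1 : ((1 : G →* ℂˣ) * 1) (a i) ≠ 1 := hoE.2
        simp at h1
    · simp [I]
  have hJcard : J.card = I.card + 1 := by
    rw [hJeq, Finset.card_insert_of_notMem (by simp), Finset.card_map]
  have hmain := cover_main pc J.card J ⊤ 1 rfl hJ
  -- the subgroup
  let K : Subgroup G := Subgroup.closure (insert (a i0 ^ p i0) (a '' (I : Set ι)))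
  have hNL : NL pc J = (MonoidHom.domRestrictHom K ℂˣ).ker := by
    apply le_antisymm
    · intro χ hχ
      have h1 : K ≤ χ.ker := by
        rw [Subgroup.closure_le]
        intro g hg
        rcases Set.mem_insert_iff.mp hg with rfl | ⟨i, hi, rfl⟩
        · have h2 : none ∈ J := by rw [hJeq]; exact Finset.mem_insert_self _ _
          exact NL_le pc J none h2 hχ
        · have h2 : some i ∈ J := (Finset.mem_filter.mp (Finset.mem_coe.mp hi)).2
          exact NL_le pc J (some i) h2 hχ
      rw [MonoidHom.mem_ker]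
      ext g
      have h2 : χ (g : G) = 1 := h1 g.2
      simp [h2]
    · apply le_NL
      intro o ho χ hχ
      rw [MonoidHom.mem_ker] at hχ
      have h1 : ∀ g ∈ K, χ g = 1 := fun g hg => by
        have := DFunLike.congr_fun hχ ⟨g, hg⟩
        simpa using this
      rcases o with _ | i
      · exact h1 _ (Subgroup.subset_closure (Set.mem_insert _ _))
      · exact h1 _ (Subgroup.subset_closure (Set.mem_insert_of_mem _
          ⟨i, Finset.mem_coe.mpr (Finset.mem_filter.mpr ⟨Finset.mem_univ _, ho⟩), rfl⟩))
  have hKcard : cardFactors (Nat.card K) ≤ I.card := by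
    have h1 : om (NL pc J) ⊤ = cardFactors (Nat.card K) := by
      unfold om
      rw [Subgroup.relIndex_top_right, hNL, index_annih]
    omega
  have hIK : ∀ i ∈ I, a i ∈ K := fun i hi =>
    Subgroup.subset_closure (Set.mem_insert_of_mem _ ⟨i, Finset.mem_coe.mpr hi, rfl⟩)
  obtain ⟨c, hc⟩ := prod_dvd_card p a hp hbij K I hIK
  have hprod : cardFactors (∏ i ∈ I, p i) = I.card := by
    clear_value I
    clear hi0 hJeq hJcard hNL hKcard hIK hc hbij hcov hJsub hJ hmain
    induction I using Finset.induction_on with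
    | empty => simp
    | insert i I hi ih' =>
      rw [Finset.prod_insert hi, cardFactors_mul (hp i).ne_zero
        (Finset.prod_ne_zero_iff.mpr fun i _ => (hp i).ne_zero), ih',
        cardFactors_apply_prime (hp i), Finset.card_insert_of_notMem hi, add_comm]
  have hKne : Nat.card K ≠ 0 := Nat.card_pos.ne'
  have hcne : c ≠ 0 := by
    rintro rfl
    rw [mul_zero] at hc
    exact hKne hc
  have hpne : ∏ i ∈ I, p i ≠ 0 := Finset.prod_ne_zero_iff.mpr fun i _ => (hp i).ne_zero
  have hc1 : c = 1 := by
    have h1 : cardFactors (Nat.card K) = cardFactors (∏ i ∈ I, p i) + cardFactors c := by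
      rw [hc, cardFactors_mul hpne hcne]
    have h2 : cardFactors c = 0 := by omega
    rcases cardFactors_eq_zero_iff_eq_zero_or_one.mp h2 with h | h
    · exact absurd h hcne
    · exact h
  rw [hc1, mul_one] at hc
  have hI0 : 0 < I.card := by
    rw [Nat.pos_iff_ne_zero]
    intro h
    rw [Finset.card_eq_zero] at h
    rw [h, Finset.prod_empty] at hc
    have h1 : a i0 ^ p i0 ∈ K := Subgroup.subset_closure (Set.mem_insert _ _)
    rw [Subgroup.card_eq_one.mp hc, Subgroup.mem_bot] at h1
    exact hb h1
  have hlt : Fintype.card I < n := by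
    rw [Fintype.card_coe, ← hn]
    exact Finset.card_lt_univ_of_notMem hi0
  obtain ⟨i, hi⟩ := ih (Fintype.card I) hlt K I (fun i => p i) (fun i => ⟨a i, hIK i i.2⟩) rfl
    (by rw [Fintype.card_coe]; exact hI0) (fun i => hp i)
    (sub_bijective p a hp hbij K I hIK hc)
  exact ⟨i, congrArg Subtype.val hi⟩

/-- **Hajos' theorem** for cyclic subsets of arbitrary orders `m i ≥ 2`. -/
theorem hajos_group.{u, v} : ∀ (d : ℕ) (G : Type u) [CommGroup G] [Finite G] (ι : Type v)
    [Fintype ι] [Nonempty ι] (m : ι → ℕ) (a : ι → G), Nat.card G ≤ d + Fintype.card ι →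
    (∀ i, 2 ≤ m i) → Function.Bijective (facMap m a) → ∃ i, a i ^ m i = 1 := by
  intro d
  induction d with
  | zero =>
    intro G _ _ ι _ _ m a hd hm hbij
    exfalso
    have h1 : Nat.card G = ∏ i, m i := by
      rw [← Nat.card_eq_of_bijective _ hbij, Nat.card_pi]
      simp
    have h2 : 2 ^ Fintype.card ι ≤ ∏ i, m i := by
      rw [← Finset.card_univ, ← Finset.prod_const]
      exact Finset.prod_le_prod' fun i _ => hm i
    have h3 := Nat.lt_two_pow_self (n := Fintype.card ι)
    omega
  | succ d ih =>
    intro G _ _ ι _ _ m a hd hm hbij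
    classical
    by_cases hall : ∀ i, (m i).Prime
    · exact hajos_prime _ G ι m a rfl Fintype.card_pos hall hbij
    push Not at hall
    obtain ⟨i, hi⟩ := hall
    obtain ⟨p, hpd, hp2, hplt⟩ := (Nat.not_prime_iff_exists_dvd_lt (hm i)).mp hi
    obtain ⟨q, hq⟩ := hpd
    have hq2 : 2 ≤ q := by
      by_contra h
      have : q = 0 ∨ q = 1 := by omega
      rcases this with rfl | rfl
      · rw [mul_zero] at hq
        have := hm i
        omega
      · rw [mul_one] at hq
        omega
    -- the refined family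
    let m' : Option ι → ℕ := fun o => o.elim q (Function.update m i p)
    let a' : Option ι → G := fun o => o.elim (a i ^ p) a
    have hm' : ∀ o, 2 ≤ m' o := by
      rintro (_ | j)
      · exact hq2
      · change 2 ≤ Function.update m i p j
        by_cases hj : j = i
        · subst hj
          rw [Function.update_self]
          exact hp2
        · rw [Function.update_of_ne hj]
          exact hm j
    have hsurj : Function.Surjective (facMap m' a') := by
      intro g
      obtain ⟨k, hk⟩ := hbij.2 g
      have hlt : ∀ j, (if j = i then (k i : ℕ) % p else (k j : ℕ)) < Function.update m i p j := by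
        intro j
        by_cases hj : j = i
        · subst hj
          rw [if_pos rfl, Function.update_self]
          exact Nat.mod_lt _ (by omega)
        · rw [if_neg hj, Function.update_of_ne hj]
          exact (k j).2
      refine ⟨fun o => match o with
        | none => ⟨(k i : ℕ) / p, Nat.div_lt_of_lt_mul (by
            have := (k i).2
            change (k i : ℕ) < p * q
            omega)⟩
        | some j => ⟨if j = i then (k i : ℕ) % p else (k j : ℕ), hlt j⟩, ?_⟩
      unfold facMap
      rw [Fintype.prod_option]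
      change (a i ^ p) ^ ((k i : ℕ) / p) * ∏ j, a j ^ (if j = i then (k i : ℕ) % p else (k j : ℕ)) = g
      rw [← hk]
      unfold facMap
      rw [← Finset.mul_prod_erase Finset.univ _ (Finset.mem_univ i),
        ← Finset.mul_prod_erase Finset.univ (fun j => a j ^ (k j : ℕ)) (Finset.mem_univ i), if_pos rfl,
        ← mul_assoc, ← pow_mul, ← pow_add, Nat.div_add_mod]
      congr 1
      refine Finset.prod_congr rfl fun j hj => ?_
      rw [if_neg (Finset.ne_of_mem_erase hj)]
    have hcard : Nat.card (∀ o, Fin (m' o)) = Nat.card G := by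
      rw [← Nat.card_eq_of_bijective _ hbij, Nat.card_pi, Nat.card_pi]
      simp only [Nat.card_eq_fintype_card, Fintype.card_fin]
      rw [Fintype.prod_option]
      change q * ∏ j, Function.update m i p j = _
      rw [Finset.prod_update_of_mem (Finset.mem_univ i), ← mul_assoc, mul_comm q, ← hq,
        Finset.sdiff_singleton_eq_erase]
      exact Finset.mul_prod_erase _ _ (Finset.mem_univ i)
    have hbij' : Function.Bijective (facMap m' a') :=
      (Nat.bijective_iff_surjective_and_card _).mpr ⟨hsurj, hcard⟩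
    obtain ⟨o, ho⟩ := ih G (Option ι) m' a' (by rw [Fintype.card_option]; omega) hm' hbij'
    rcases o with _ | j
    · refine ⟨i, ?_⟩
      rw [hq, pow_mul]
      exact ho
    · change a j ^ Function.update m i p j = 1 at ho
      by_cases hj : j = i
      · subst hj
        rw [Function.update_self] at ho
        exact ⟨j, by rw [hq, pow_mul, ho, one_pow]⟩
      · rw [Function.update_of_ne hj] at ho
        exact ⟨j, ho⟩

end Pool.Agent.H158R2.HJ
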