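import Pool.Agent.H158R2.HJ.Shift
import Pool.Agent.H158R2.HJ.Approx

/-!
# Hajos' theorem for lattice cube tilings: some unit vector belongs to the lattice
-/

set_option autoImplicit false
set_option linter.unusedSectionVars false
set_option linter.style.haveILetI false

namespace Pool.Agent.H158R2.HJ

open Filter Topology Matrix

section

variable {ι : Type*} [Fintype ι] [DecidableEq ι]

/-- a nonzero vector of a tiling lattice has a coordinate of absolute value at least one -/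
theorem eq_zero_of_small (Λ : AddSubgroup (ι → ℝ)) (hΛ : Tiles (Λ : Set (ι → ℝ)))
    (l : ι → ℝ) (hl : l ∈ Λ) (h : ∀ i, |l i| < 1) : l = 0 := by
  obtain ⟨t, _, huniq⟩ := hΛ (fun i => max (l i) 0)
  have h1 := huniq l ⟨hl, fun i => ⟨le_max_left _ _, by
    have := abs_lt.mp (h i)
    rw [max_lt_iff]
    constructor <;> linarith⟩⟩
  have h2 := huniq 0 ⟨Λ.zero_mem, fun i => ⟨le_max_right _ _, by
    have := abs_lt.mp (h i)
    rw [max_lt_iff]
    simp only [Pi.zero_apply]
    constructor <;> linarith⟩⟩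
  rw [h1, h2]

theorem discrete_of_tiles (Λ : AddSubgroup (ι → ℝ)) (hΛ : Tiles (Λ : Set (ι → ℝ))) :
    DiscreteTopology (AddSubgroup.toIntSubmodule Λ) := by
  apply discreteTopology_of_isOpen_singleton_zero
  have h1 : ({0} : Set (AddSubgroup.toIntSubmodule Λ)) =
      (Subtype.val) ⁻¹' (Metric.ball (0 : ι → ℝ) 1) := by
    ext x
    simp only [Set.mem_singleton_iff, Set.mem_preimage, mem_ball_zero_iff]
    constructor
    · rintro rfl
      simp
    · intro hx
      apply Subtype.ext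
      refine eq_zero_of_small Λ hΛ _ x.2 fun i => ?_
      exact lt_of_le_of_lt (norm_le_pi_norm (x : ι → ℝ) i) hx
  rw [h1]
  exact Metric.isOpen_ball.preimage continuous_subtype_val

theorem span_of_tiles (Λ : AddSubgroup (ι → ℝ)) (hΛ : Tiles (Λ : Set (ι → ℝ))) :
    Submodule.span ℝ (Λ : Set (ι → ℝ)) = ⊤ := by
  rw [eq_top_iff]
  intro x _
  have hcl : IsClosed ((Submodule.span ℝ (Λ : Set (ι → ℝ)) : Submodule ℝ (ι → ℝ)) : Set (ι → ℝ)) :=
    Submodule.closed_of_finiteDimensional _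
  have hex : ∀ n : ℕ, ∃ l ∈ Λ, ∀ i, l i ≤ (n : ℝ) * x i ∧ (n : ℝ) * x i < l i + 1 := by
    intro n
    obtain ⟨t, ⟨ht, h1⟩, _⟩ := hΛ (fun i => (n : ℝ) * x i)
    exact ⟨t, ht, h1⟩
  choose l hl hlx using hex
  have hlim : Tendsto (fun n : ℕ => ((n : ℝ) + 1)⁻¹ • l (n + 1)) atTop (𝓝 x) := by
    rw [tendsto_pi_nhds]
    intro i
    rw [tendsto_iff_dist_tendsto_zero]
    refine squeeze_zero (fun m => dist_nonneg) (fun m => ?_) tendsto_one_div_add_atTop_nhds_zero_nat
    have h1 := hlx (m + 1) i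
    have hpos : (0 : ℝ) < (m : ℝ) + 1 := by positivity
    push_cast at h1
    rw [Real.dist_eq, Pi.smul_apply, smul_eq_mul]
    have h2 : ((m : ℝ) + 1)⁻¹ * l (m + 1) i - x i =
        (l (m + 1) i - ((m : ℝ) + 1) * x i) / ((m : ℝ) + 1) := by
      field_simp
    rw [h2, abs_div, abs_of_pos hpos]
    apply div_le_div_of_nonneg_right _ hpos.le
    rw [abs_le]
    constructor <;> linarith
  refine hcl.mem_of_tendsto hlim (Eventually.of_forall fun n => ?_)
  exact Submodule.smul_mem _ _ (Submodule.subset_span (hl _))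

/-- common denominator -/
theorem exists_common_den (q : ι → ι → ℚ) : ∃ N : ℕ, 2 ≤ N ∧ ∀ j i, ∃ z : ℤ, (q j i : ℝ) = z / N := by
  refine ⟨2 * ∏ j, ∏ i, (q j i).den, ?_, ?_⟩
  · have : 0 < ∏ j, ∏ i, (q j i).den :=
      Finset.prod_pos fun j _ => Finset.prod_pos fun i _ => (q j i).den_pos
    omega
  · intro j i
    have hd : (q j i).den ∣ 2 * ∏ j, ∏ i, (q j i).den :=
      ((Finset.dvd_prod_of_mem (fun i => (q j i).den) (Finset.mem_univ i)).trans
        (Finset.dvd_prod_of_mem (fun j => ∏ i, (q j i).den) (Finset.mem_univ j))).mul_left 2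
    obtain ⟨c, hc⟩ := hd
    have hpos : 0 < 2 * ∏ j, ∏ i, (q j i).den := by
      have : 0 < ∏ j, ∏ i, (q j i).den :=
        Finset.prod_pos fun j _ => Finset.prod_pos fun i _ => (q j i).den_pos
      omega
    refine ⟨(q j i).num * c, ?_⟩
    rw [hc]
    rw [hc] at hpos
    have hden : ((q j i).den : ℝ) ≠ 0 := by exact_mod_cast (q j i).den_ne_zero
    have hcne : (c : ℝ) ≠ 0 := by
      have : c ≠ 0 := by
        rintro rfl
        simp at hpos
      exact_mod_cast this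
    have h1 : (q j i : ℝ) = (q j i).num / (q j i).den := by
      conv_lhs => rw [← Rat.num_div_den (q j i)]
      push_cast
      rfl
    rw [h1]
    push_cast
    field_simp

/-- **Hajos' theorem** for lattice tilings by unit cubes. -/
theorem hajos_lattice [Nonempty ι] (Λ : AddSubgroup (ι → ℝ)) (hΛ : Tiles (Λ : Set (ι → ℝ))) :
    ∃ i, (Pi.single i (1 : ℝ) : ι → ℝ) ∈ Λ := by
  classical
  haveI hdisc := discrete_of_tiles Λ hΛ
  haveI hlat : IsZLattice ℝ (AddSubgroup.toIntSubmodule Λ) := ⟨span_of_tiles Λ hΛ⟩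
  let b := IsZLattice.basis (AddSubgroup.toIntSubmodule Λ)
  let b' := b.ofZLatticeBasis ℝ (AddSubgroup.toIntSubmodule Λ)
  obtain ⟨f, hf1, hfq, hflim⟩ := exists_approx
  -- the matrices
  let B : Matrix ι ι ℝ := Matrix.of fun j i => (b j : ι → ℝ) i
  let Bm : ℕ → Matrix ι ι ℝ := fun m => Matrix.of fun j i => f m ((b j : ι → ℝ) i)
  have hBlim : Tendsto Bm atTop (𝓝 B) := by
    refine tendsto_pi_nhds.mpr fun j => tendsto_pi_nhds.mpr fun i => ?_
    exact hflim _
  have hdet : B.det ≠ 0 := by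
    have h1 : LinearIndependent ℝ B.row := by
      have h2 := b'.linearIndependent
      have h3 : (b' : ι → ι → ℝ) = B.row := by
        funext j
        rw [Module.Basis.ofZLatticeBasis_apply]
        rfl
      rwa [h3] at h2
    rw [Matrix.linearIndependent_rows_iff_isUnit, Matrix.isUnit_iff_isUnit_det] at h1
    exact h1.ne_zero
  -- expansion in the basis
  have hexp : ∀ l ∈ Λ, ∃ c : ι → ℤ, ∀ i, l i = ∑ j, (c j : ℝ) * (b j : ι → ℝ) i := by
    intro l hl
    refine ⟨fun j => b.repr ⟨l, hl⟩ j, fun i => ?_⟩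
    have h1 := b.sum_repr ⟨l, hl⟩
    have h2 := congrArg (fun x : AddSubgroup.toIntSubmodule Λ => (x : ι → ℝ) i) h1
    simp only [AddSubmonoidClass.coe_finsetSum, Finset.sum_apply] at h2
    rw [← h2]
    refine Finset.sum_congr rfl fun j _ => ?_
    simp
  have hexpf : ∀ m, ∀ l ∈ Λ, ∃ c : ι → ℤ, ∀ i, f m (l i) = ∑ j, (c j : ℝ) * Bm m j i := by
    intro m l hl
    obtain ⟨c, hc⟩ := hexp l hl
    refine ⟨c, fun i => ?_⟩
    rw [hc i, map_sum]
    refine Finset.sum_congr rfl fun j _ => ?_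
    have h1 : (c j : ℝ) * (b j : ι → ℝ) i = (c j) • ((b j : ι → ℝ) i) := by
      rw [zsmul_eq_mul]
    rw [h1, map_zsmul, zsmul_eq_mul]
    rfl
  -- the approximating lattices
  let F : ℕ → ((ι → ℝ) →+ (ι → ℝ)) := fun m =>
    { toFun := fun x i => f m (x i)
      map_zero' := by ext i; simp
      map_add' := by intro x y; ext i; simp }
  have htm : ∀ m, Tiles ((Λ.map (F m) : AddSubgroup (ι → ℝ)) : Set (ι → ℝ)) := by
    intro m
    rw [AddSubgroup.coe_map]
    exact tiles_map _ hΛ (fun x => f m x) (fun x => by rw [map_add, hf1])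
  have hex : ∀ m, ∃ i, (Pi.single i (1 : ℝ) : ι → ℝ) ∈ Λ.map (F m) := by
    intro m
    choose q hq using hfq m
    obtain ⟨N, hN, hz⟩ := exists_common_den (fun j i => q ((b j : ι → ℝ) i))
    refine hajos_rational _ (htm m) N hN ?_
    rintro l ⟨x, hx, rfl⟩ i
    obtain ⟨c, hc⟩ := hexpf m x hx
    choose z hz using hz
    refine ⟨∑ j, c j * z j i, ?_⟩
    change f m (x i) = _
    rw [hc i]
    push_cast
    rw [Finset.sum_div]
    refine Finset.sum_congr rfl fun j _ => ?_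
    have h1 : Bm m j i = z j i / N := by
      rw [← hz j i, ← hq]
      rfl
    rw [h1, mul_div_assoc]
  obtain ⟨i, hi⟩ : ∃ i, ∃ᶠ m in atTop, (Pi.single i (1 : ℝ) : ι → ℝ) ∈ Λ.map (F m) := by
    by_contra h
    push Not at h
    have h1 : ∀ᶠ m in atTop, ∀ i, (Pi.single i (1 : ℝ) : ι → ℝ) ∉ Λ.map (F m) := by
      rw [eventually_all]
      exact h
    obtain ⟨m, hm⟩ := h1.exists
    obtain ⟨i, hi⟩ := hex m
    exact hm i hi
  refine ⟨i, ?_⟩
  -- integer vectors
  have hint : ∀ m, ∃ n : ι → ℤ, (Pi.single i (1 : ℝ) : ι → ℝ) ∈ Λ.map (F m) →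
      (fun j => (n j : ℝ)) ᵥ* Bm m = Pi.single i 1 := by
    intro m
    by_cases hm : (Pi.single i (1 : ℝ) : ι → ℝ) ∈ Λ.map (F m)
    · obtain ⟨x, hx, hx'⟩ := hm
      obtain ⟨c, hc⟩ := hexpf m x hx
      refine ⟨c, fun _ => ?_⟩
      rw [← hx']
      funext i'
      exact (hc i').symm
    · exact ⟨0, fun h => absurd h hm⟩
  choose n hn using hint
  -- the limit of the coefficient vectors
  let w : ℕ → ι → ℝ := fun m => (Bm m).det⁻¹ • ((Pi.single i (1 : ℝ) : ι → ℝ) ᵥ* (Bm m).adjugate)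
  let ν : ι → ℝ := B.det⁻¹ • ((Pi.single i (1 : ℝ) : ι → ℝ) ᵥ* B.adjugate)
  have hdlim : Tendsto (fun m => (Bm m).det) atTop (𝓝 B.det) :=
    (Continuous.matrix_det continuous_id).tendsto B |>.comp hBlim
  have hwlim : Tendsto w atTop (𝓝 ν) := by
    apply Tendsto.smul (hdlim.inv₀ hdet)
    have h1 : Continuous (fun A : Matrix ι ι ℝ => (Pi.single i (1 : ℝ) : ι → ℝ) ᵥ* A.adjugate) :=
      Continuous.matrix_vecMul continuous_const (Continuous.matrix_adjugate continuous_id)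
    exact (h1.tendsto B).comp hBlim
  have hdne : ∀ᶠ m in atTop, (Bm m).det ≠ 0 := hdlim.eventually_ne hdet
  have hwn : ∀ m, (Bm m).det ≠ 0 → (Pi.single i (1 : ℝ) : ι → ℝ) ∈ Λ.map (F m) →
      (fun j => (n m j : ℝ)) = w m := by
    intro m hd hm
    have h1 := hn m hm
    have h2 : ((fun j => (n m j : ℝ)) ᵥ* Bm m) ᵥ* (Bm m).adjugate =
        (Pi.single i (1 : ℝ) : ι → ℝ) ᵥ* (Bm m).adjugate := by rw [h1]
    rw [Matrix.vecMul_vecMul, Matrix.mul_adjugate, Matrix.vecMul_smul, Matrix.vecMul_one] at h2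
    change _ = (Bm m).det⁻¹ • ((Pi.single i (1 : ℝ) : ι → ℝ) ᵥ* (Bm m).adjugate)
    rw [← h2, smul_smul, inv_mul_cancel₀ hd, one_smul]
  have hclose : ∀ᶠ m in atTop, ∀ j, |w m j - ν j| < 1 / 2 := by
    rw [eventually_all]
    intro j
    have h1 := (tendsto_pi_nhds.mp hwlim) j
    have h2 := (Metric.tendsto_nhds.mp h1) (1 / 2) (by norm_num)
    exact h2
  obtain ⟨m0, hm0, hd0, hc0⟩ := (hi.and_eventually (hdne.and hclose)).exists
  have heq : ∃ᶠ m in atTop, (fun j => (n m0 j : ℝ)) ᵥ* Bm m = Pi.single i 1 := by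
    refine (hi.and_eventually (hdne.and hclose)).mono ?_
    rintro m ⟨hm, hd, hc⟩
    have h1 : n m = n m0 := by
      funext j
      have e1 := congrFun (hwn m hd hm) j
      have e2 := congrFun (hwn m0 hd0 hm0) j
      have e3 := hc j
      have e4 := hc0 j
      rw [← e1] at e3
      rw [← e2] at e4
      rw [abs_lt] at e3 e4
      have e5 : ((n m j : ℤ) : ℝ) < n m0 j + 1 := by linarith
      have e6 : ((n m0 j : ℤ) : ℝ) < n m j + 1 := by linarith
      have e7 : n m j < n m0 j + 1 := by exact_mod_cast e5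
      have e8 : n m0 j < n m j + 1 := by exact_mod_cast e6
      omega
    rw [← h1]
    exact hn m hm
  have hfin : (fun j => (n m0 j : ℝ)) ᵥ* B = Pi.single i 1 := by
    have h1 : Continuous (fun A : Matrix ι ι ℝ => (fun j => (n m0 j : ℝ)) ᵥ* A) :=
      Continuous.matrix_vecMul continuous_const continuous_id
    have h2 : Tendsto (fun m => (fun j => (n m0 j : ℝ)) ᵥ* Bm m) atTop
        (𝓝 ((fun j => (n m0 j : ℝ)) ᵥ* B)) := (h1.tendsto B).comp hBlim
    exact tendsto_nhds_unique_of_frequently_eq h2 tendsto_const_nhds heq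
  rw [← hfin]
  have h1 : (fun j => (n m0 j : ℝ)) ᵥ* B = ∑ j, (n m0 j) • (b j : ι → ℝ) := by
    funext i'
    rw [Finset.sum_apply]
    change ∑ j, (n m0 j : ℝ) * (b j : ι → ℝ) i' = _
    refine Finset.sum_congr rfl fun j _ => ?_
    simp
  rw [h1]
  exact Λ.sum_mem fun j _ => Λ.zsmul_mem (b j).2 _

end

end Pool.Agent.H158R2.HJ
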