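import Pool.Agent.H158R2.HJ.Group

/-!
# Hajos' theorem for rational lattice cube tilings
-/

set_option autoImplicit false
set_option linter.unusedSectionVars false
set_option linter.style.haveILetI false

namespace Pool.Agent.H158R2.HJ

/-- The translates of the half-open unit cube by `T` tile the space. -/
def Tiles {ι : Type*} (T : Set (ι → ℝ)) : Prop :=
  ∀ x : ι → ℝ, ∃! t : ι → ℝ, t ∈ T ∧ ∀ i, t i ≤ x i ∧ x i < t i + 1

/-- the embedding of the integer points as multiples of `1 / N` -/
noncomputable def phiN (ι : Type*) (N : ℕ) : (ι → ℤ) →+ (ι → ℝ) where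
  toFun z := fun i => (z i : ℝ) / N
  map_zero' := by ext i; simp
  map_add' := by intro x y; ext i; simp [add_div]

theorem hajos_rational {ι : Type*} [Fintype ι] [DecidableEq ι] [Nonempty ι]
    (Λ : AddSubgroup (ι → ℝ)) (hΛ : Tiles (Λ : Set (ι → ℝ))) (N : ℕ) (hN : 2 ≤ N)
    (hrat : ∀ l ∈ Λ, ∀ i, ∃ z : ℤ, l i = z / N) : ∃ i, Pi.single i (1 : ℝ) ∈ Λ := by
  have hN0 : (0 : ℝ) < N := by positivity
  let B : AddSubgroup (ι → ℤ) := Λ.comap (phiN ι N)
  let G := Multiplicative ((ι → ℤ) ⧸ B)
  let a : ι → G := fun i => Multiplicative.ofAdd (QuotientAddGroup.mk (Pi.single i (1 : ℤ)))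
  have hfac : ∀ k : (ι → Fin N), facMap (fun _ => N) a k =
      Multiplicative.ofAdd (QuotientAddGroup.mk (fun i => ((k i : ℕ) : ℤ)) : (ι → ℤ) ⧸ B) := by
    intro k
    unfold facMap
    have h1 : (fun i => ((k i : ℕ) : ℤ)) = ∑ i, (k i : ℕ) • (Pi.single i (1 : ℤ) : ι → ℤ) := by
      ext j
      simp [Finset.sum_apply, Pi.single_apply]
    have h2 : (QuotientAddGroup.mk (fun i => ((k i : ℕ) : ℤ)) : (ι → ℤ) ⧸ B) =
        ∑ i, (k i : ℕ) • (QuotientAddGroup.mk (Pi.single i (1 : ℤ)) : (ι → ℤ) ⧸ B) := by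
      rw [h1, ← QuotientAddGroup.mk'_apply, map_sum]
      refine Finset.sum_congr rfl fun i _ => ?_
      rw [map_nsmul]
      rfl
    rw [h2, ofAdd_sum]
    rfl
  have hbij : Function.Bijective (facMap (fun _ : ι => N) a) := by
    constructor
    · intro k k' h
      rw [hfac, hfac] at h
      have h1 : (QuotientAddGroup.mk (fun i => ((k i : ℕ) : ℤ)) : (ι → ℤ) ⧸ B) =
        QuotientAddGroup.mk (fun i => ((k' i : ℕ) : ℤ)) := Multiplicative.ofAdd.injective h
      rw [QuotientAddGroup.eq] at h1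
      have h2 : phiN ι N (-(fun i => ((k i : ℕ) : ℤ)) + (fun i => ((k' i : ℕ) : ℤ))) ∈ Λ := h1
      obtain ⟨t, _, huniq⟩ := hΛ (phiN ι N (fun i => ((k' i : ℕ) : ℤ)))
      have h3 := huniq 0 ⟨Λ.zero_mem, fun i => by
        have h4 := (k' i).2
        have h5 : ((k' i : ℕ) : ℝ) < N := by exact_mod_cast h4
        constructor
        · simp only [phiN, AddMonoidHom.coe_mk, ZeroHom.coe_mk, Pi.zero_apply]
          positivity
        · simp only [phiN, AddMonoidHom.coe_mk, ZeroHom.coe_mk, Pi.zero_apply, zero_add]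
          rw [div_lt_one hN0]
          exact_mod_cast h4⟩
      have h4 := huniq _ ⟨h2, fun i => by
        have h5 : ((k i : ℕ) : ℝ) < N := by exact_mod_cast (k i).2
        have h6 : (0 : ℝ) ≤ ((k i : ℕ) : ℝ) := by positivity
        simp only [phiN, AddMonoidHom.coe_mk, ZeroHom.coe_mk, Pi.add_apply, Pi.neg_apply]
        push_cast
        constructor
        · apply div_le_div_of_nonneg_right _ hN0.le
          linarith
        · rw [div_add_one hN0.ne', div_lt_div_iff_of_pos_right hN0]
          linarith⟩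
      rw [← h3] at h4
      funext i
      have h5 := congrFun h4 i
      simp only [phiN, AddMonoidHom.coe_mk, ZeroHom.coe_mk, Pi.add_apply, Pi.neg_apply,
        Pi.zero_apply] at h5
      rw [div_eq_zero_iff] at h5
      rcases h5 with h5 | h5
      · have h6 : -((k i : ℕ) : ℤ) + ((k' i : ℕ) : ℤ) = 0 := by exact_mod_cast h5
        exact Fin.ext (by omega)
      · exact absurd h5 hN0.ne'
    · intro g
      obtain ⟨x, hx⟩ := QuotientAddGroup.mk_surjective (Multiplicative.toAdd g)
      obtain ⟨l, ⟨hl, hlx⟩, _⟩ := hΛ (phiN ι N x)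
      choose z hz using hrat l hl
      have hz1 : ∀ i, z i ≤ x i ∧ x i < z i + N := by
        intro i
        have h1 := hlx i
        rw [hz i] at h1
        simp only [phiN, AddMonoidHom.coe_mk, ZeroHom.coe_mk] at h1
        rw [div_le_div_iff_of_pos_right hN0, div_add_one hN0.ne',
          div_lt_div_iff_of_pos_right hN0] at h1
        exact_mod_cast h1
      refine ⟨fun i => ⟨(x i - z i).toNat, by have := hz1 i; omega⟩, ?_⟩
      rw [hfac]
      apply Multiplicative.toAdd.injective
      rw [← hx, toAdd_ofAdd]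
      rw [QuotientAddGroup.eq]
      have h1 : -(fun i => (((x i - z i).toNat : ℕ) : ℤ)) + x = z := by
        funext i
        have := hz1 i
        simp only [Pi.add_apply, Pi.neg_apply]
        omega
      change -(fun i => (((x i - z i).toNat : ℕ) : ℤ)) + x ∈ B
      rw [h1]
      change phiN ι N z ∈ Λ
      have h2 : phiN ι N z = l := by
        funext i
        rw [hz i]
        rfl
      rw [h2]
      exact hl
  haveI : Finite G := Finite.of_surjective _ hbij.2
  obtain ⟨i, hi⟩ := hajos_group (Nat.card G) G ι (fun _ => N) a (by omega) (fun _ => hN) hbij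
  refine ⟨i, ?_⟩
  have h1 : (QuotientAddGroup.mk (N • Pi.single i (1 : ℤ)) : (ι → ℤ) ⧸ B) = 0 := by
    have h2 := congrArg Multiplicative.toAdd hi
    rw [toAdd_pow, toAdd_one] at h2
    rw [← h2]
    rfl
  rw [QuotientAddGroup.eq_zero_iff] at h1
  have h2 : phiN ι N (N • Pi.single i (1 : ℤ)) ∈ Λ := h1
  have h3 : phiN ι N (N • Pi.single i (1 : ℤ)) = Pi.single i (1 : ℝ) := by
    funext j
    simp only [phiN, AddMonoidHom.coe_mk, ZeroHom.coe_mk, Pi.smul_apply, Pi.single_apply]
    split_ifs
    · simp only [smul_eq_mul, nsmul_eq_mul, mul_one, Int.cast_natCast]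
      exact div_self hN0.ne'
    · simp
  rwa [h3] at h2

end Pool.Agent.H158R2.HJ
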