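import Pool.Agent.H158R2.HJ.Rational

/-!
# Shifting classes of cubes (Keller), rational approximation
-/

set_option autoImplicit false
set_option linter.unusedSectionVars false
set_option linter.style.haveILetI false

namespace Pool.Agent.H158R2.HJ

open Filter Topology

/-! ### one-dimensional tilings -/

section one

variable {α : Type*} (S : Set α) (c : α → ℝ)
  (h : ∀ s : ℝ, ∃! t, t ∈ S ∧ c t ≤ s ∧ s < c t + 1)

include h

theorem one_succ (t : α) (ht : t ∈ S) : ∃ t' ∈ S, c t' = c t + 1 := by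
  obtain ⟨t', ⟨ht', h1, h2⟩, _⟩ := h (c t + 1)
  refine ⟨t', ht', ?_⟩
  by_contra hne
  have hlt : c t' < c t + 1 := lt_of_le_of_ne h1 hne
  obtain ⟨v, _, huniq⟩ := h (c t')
  have e1 := huniq t ⟨ht, by linarith, hlt⟩
  have e2 := huniq t' ⟨ht', le_refl _, by linarith⟩
  rw [e1, ← e2] at h2
  linarith

theorem one_pred (t : α) (ht : t ∈ S) : ∃ t' ∈ S, c t' = c t - 1 := by
  obtain ⟨t', ⟨ht', h1, h2⟩, _⟩ := h (c t - 1)
  obtain ⟨t'', ht'', h3⟩ := one_succ S c h t' ht'
  obtain ⟨v, _, huniq⟩ := h (c t)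
  have e1 := huniq t ⟨ht, le_refl _, by linarith⟩
  have e2 := huniq t'' ⟨ht'', by linarith, by linarith⟩
  refine ⟨t', ht', ?_⟩
  have : c t'' = c t := by rw [e2, ← e1]
  linarith

theorem one_int (t : α) (ht : t ∈ S) (n : ℤ) : ∃ t' ∈ S, c t' = c t + n := by
  induction n using Int.induction_on with
  | zero => exact ⟨t, ht, by simp⟩
  | succ n ih =>
    obtain ⟨t', ht', h1⟩ := ih
    obtain ⟨t'', ht'', h2⟩ := one_succ S c h t' ht'
    refine ⟨t'', ht'', ?_⟩
    rw [h2, h1]
    push_cast
    ring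
  | pred n ih =>
    obtain ⟨t', ht', h1⟩ := ih
    obtain ⟨t'', ht'', h2⟩ := one_pred S c h t' ht'
    refine ⟨t'', ht'', ?_⟩
    rw [h2, h1]
    push_cast
    ring

theorem one_class (t : α) (ht : t ∈ S) (t' : α) (ht' : t' ∈ S) : ∃ n : ℤ, c t' = c t + n := by
  obtain ⟨v, hv, h1⟩ := one_int S c h t ht ⌊c t' - c t⌋
  obtain ⟨w, _, huniq⟩ := h (c t')
  have h2 := Int.floor_le (c t' - c t)
  have h3 := Int.lt_floor_add_one (c t' - c t)
  have e1 := huniq t' ⟨ht', le_refl _, by linarith⟩
  have e2 := huniq v ⟨hv, by linarith, by linarith⟩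
  exact ⟨⌊c t' - c t⌋, (congrArg c (e1.trans e2.symm)).trans h1⟩

end one

theorem f_int (f : ℝ → ℝ) (hf : ∀ x, f (x + 1) = f x + 1) (x : ℝ) (n : ℤ) : f (x + n) = f x + n := by
  induction n using Int.induction_on with
  | zero => simp
  | succ n ih =>
    push_cast at ih ⊢
    rw [← add_assoc, hf, ih]
    ring
  | pred n ih =>
    push_cast at ih ⊢
    have := hf (x + (-n - 1))
    have h2 : x + (-(n : ℝ) - 1) + 1 = x + -n := by ring
    rw [h2, ih] at this
    linarith

/-- Shifting the coordinate `k` by a function commuting with `x ↦ x + 1` preserves tilings. -/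
theorem tiles_shift {ι : Type*} [DecidableEq ι] (T : Set (ι → ℝ)) (hT : Tiles T) (k : ι)
    (f : ℝ → ℝ) (hf : ∀ x, f (x + 1) = f x + 1) :
    Tiles ((fun t : ι → ℝ => Function.update t k (f (t k))) '' T) := by
  intro x
  -- the cubes meeting the line through `x`
  let S : Set (ι → ℝ) := {t | t ∈ T ∧ ∀ i, i ≠ k → t i ≤ x i ∧ x i < t i + 1}
  have hS : ∀ s : ℝ, ∃! t, t ∈ S ∧ t k ≤ s ∧ s < t k + 1 := by
    intro s
    obtain ⟨t, ⟨ht, h1⟩, huniq⟩ := hT (Function.update x k s)
    refine ⟨t, ⟨⟨ht, fun i hi => ?_⟩, ?_⟩, ?_⟩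
    · have := h1 i
      rwa [Function.update_of_ne hi] at this
    · have := h1 k
      rwa [Function.update_self] at this
    · rintro t' ⟨⟨ht', h2⟩, h3⟩
      apply huniq
      refine ⟨ht', fun i => ?_⟩
      by_cases hi : i = k
      · subst hi
        rw [Function.update_self]
        exact h3
      · rw [Function.update_of_ne hi]
        exact h2 i hi
  obtain ⟨t0, ⟨ht0, _⟩, _⟩ := hS 0
  let n := ⌊x k - f (t0 k)⌋
  have hn1 := Int.floor_le (x k - f (t0 k))
  have hn2 := Int.lt_floor_add_one (x k - f (t0 k))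
  obtain ⟨t, ht, htk⟩ := one_int S (fun t => t k) hS t0 ht0 n
  refine ⟨Function.update t k (f (t k)), ⟨⟨t, ht.1, rfl⟩, fun i => ?_⟩, ?_⟩
  · by_cases hi : i = k
    · subst hi
      rw [Function.update_self, htk, f_int f hf]
      constructor <;> linarith
    · rw [Function.update_of_ne hi]
      exact ht.2 i hi
  · rintro u ⟨⟨t', ht', rfl⟩, h1⟩
    have ht'S : t' ∈ S := ⟨ht', fun i hi => by
      have := h1 i
      simp only at this
      rwa [Function.update_of_ne hi] at this⟩
    obtain ⟨n', hn'⟩ := one_class S (fun t => t k) hS t0 ht0 t' ht'S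
    have h2 := h1 k
    simp only at h2
    rw [Function.update_self, hn', f_int f hf] at h2
    have h3 : n' = n := by
      symm
      rw [Int.floor_eq_iff]
      constructor <;> linarith
    have h4 : t' = t := by
      obtain ⟨v, _, huniq⟩ := hS (t k)
      rw [huniq t' ⟨ht'S, by rw [hn', h3, htk]; simp⟩, huniq t ⟨ht, by simp⟩]
    rw [h4]

/-- Applying a function commuting with `x ↦ x + 1` to all coordinates preserves tilings. -/
theorem tiles_map {ι : Type*} [Fintype ι] [DecidableEq ι] (T : Set (ι → ℝ)) (hT : Tiles T)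
    (f : ℝ → ℝ) (hf : ∀ x, f (x + 1) = f x + 1) :
    Tiles ((fun (t : ι → ℝ) i => f (t i)) '' T) := by
  have key : ∀ A : Finset ι, Tiles ((fun (t : ι → ℝ) i => if i ∈ A then f (t i) else t i) '' T) := by
    intro A
    induction A using Finset.induction_on with
    | empty =>
      have : (fun (t : ι → ℝ) i => if i ∈ (∅ : Finset ι) then f (t i) else t i) '' T = T := by
        simp
      rw [this]
      exact hT
    | insert k A hk ih =>
      have h1 := tiles_shift _ ih k f hf
      rw [Set.image_image] at h1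
      convert h1 using 3 with t _ i
      by_cases hi : i = k
      · subst hi
        simp [hk]
      · simp [hi]
  have h1 := key Finset.univ
  simpa using h1

end Pool.Agent.H158R2.HJ
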