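import Pool.Agent.H158R2.HJ.Lattice

/-!
# Hajos' theorem: triangular form of lattice cube tilings
-/

set_option autoImplicit false
set_option linter.unusedSectionVars false
set_option linter.style.haveILetI false

namespace Pool.Agent.H158R2.HJ

/-- restriction to the coordinates different from `i0` -/
def prj {ι : Type*} (i0 : ι) : (ι → ℝ) →+ ({i // i ≠ i0} → ℝ) where
  toFun x := fun i => x i
  map_zero' := rfl
  map_add' _ _ := rfl

/-- moving a point of the lattice along `e_{i0}` so that its coordinate lies in `(s - 1, s]` -/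
theorem exists_lift {ι : Type*} [DecidableEq ι] (Λ : AddSubgroup (ι → ℝ)) (i0 : ι)
    (h0 : (Pi.single i0 (1 : ℝ) : ι → ℝ) ∈ Λ) (l : ι → ℝ) (hl : l ∈ Λ) (s : ℝ) :
    ∃ l' ∈ Λ, (∀ i, i ≠ i0 → l' i = l i) ∧ l' i0 ≤ s ∧ s < l' i0 + 1 := by
  refine ⟨l + ⌊s - l i0⌋ • (Pi.single i0 (1 : ℝ) : ι → ℝ), Λ.add_mem hl (Λ.zsmul_mem h0 _), ?_, ?_, ?_⟩
  · intro i hi
    simp [hi]
  · have := Int.floor_le (s - l i0)
    rw [Pi.add_apply, Pi.smul_apply, Pi.single_eq_same, zsmul_eq_mul, mul_one]
    linarith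
  · have := Int.lt_floor_add_one (s - l i0)
    rw [Pi.add_apply, Pi.smul_apply, Pi.single_eq_same, zsmul_eq_mul, mul_one]
    linarith

theorem tiles_prj {ι : Type*} [DecidableEq ι] (Λ : AddSubgroup (ι → ℝ))
    (hΛ : Tiles (Λ : Set (ι → ℝ))) (i0 : ι) (h0 : (Pi.single i0 (1 : ℝ) : ι → ℝ) ∈ Λ) :
    Tiles ((Λ.map (prj i0) : AddSubgroup ({i // i ≠ i0} → ℝ)) : Set ({i // i ≠ i0} → ℝ)) := by
  intro x'
  let x : ι → ℝ := fun i => if h : i = i0 then 0 else x' ⟨i, h⟩
  have hx : ∀ i (h : i ≠ i0), x i = x' ⟨i, h⟩ := fun i h => dif_neg h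
  have hx0 : x i0 = 0 := dif_pos rfl
  obtain ⟨l, ⟨hl, h1⟩, huniq⟩ := hΛ x
  refine ⟨prj i0 l, ⟨⟨l, hl, rfl⟩, fun i => ?_⟩, ?_⟩
  · have := h1 i
    rw [hx i i.2] at this
    exact this
  · rintro y ⟨⟨l2, hl2, rfl⟩, h2⟩
    obtain ⟨l3, hl3, h3, h4, h5⟩ := exists_lift Λ i0 h0 l2 hl2 0
    have h6 : l3 = l := by
      apply huniq
      refine ⟨hl3, fun i => ?_⟩
      by_cases hi : i = i0
      · subst hi
        rw [hx0]
        exact ⟨h4, h5⟩
      · rw [h3 i hi, hx i hi]
        exact h2 ⟨i, hi⟩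
    funext i
    change l2 i = l i
    rw [← h6, h3 i i.2]

/-- **Hajos' theorem, triangular form.** A lattice tiling by unit cubes has, for a suitable order
`r` of the coordinates, a basis `v k = e_k + (combination of the e_j with r j < r k)`, with
coefficients in `[0, 1)`. -/
theorem hajos_triangular.{u} : ∀ (n : ℕ) (ι : Type u) [Fintype ι] [DecidableEq ι]
    (Λ : AddSubgroup (ι → ℝ)), Tiles (Λ : Set (ι → ℝ)) → Fintype.card ι = n →
    ∃ (r : ι → ℕ) (v : ι → ι → ℝ), Function.Injective r ∧ (∀ k, r k < n) ∧ (∀ k, v k ∈ Λ) ∧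
      (∀ k, v k k = 1) ∧ (∀ k j, r k < r j → v k j = 0) ∧
      (∀ k j, r j < r k → 0 ≤ v k j ∧ v k j < 1) ∧
      ∀ l ∈ Λ, ∃ c : ι → ℤ, l = ∑ k, c k • v k := by
  intro n
  induction n with
  | zero =>
    intro ι _ _ Λ hΛ hn
    haveI : IsEmpty ι := Fintype.card_eq_zero_iff.mp hn
    refine ⟨fun _ => 0, fun k => isEmptyElim k, fun k => isEmptyElim k, fun k => isEmptyElim k,
      fun k => isEmptyElim k, fun k => isEmptyElim k, fun k => isEmptyElim k,
      fun k => isEmptyElim k, fun l _ => ⟨fun k => isEmptyElim k, ?_⟩⟩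
    funext k
    exact isEmptyElim k
  | succ n ih =>
    intro ι _ _ Λ hΛ hn
    haveI : Nonempty ι := Fintype.card_pos_iff.mp (by omega)
    obtain ⟨i0, h0⟩ := hajos_lattice Λ hΛ
    have hcard : Fintype.card {i // i ≠ i0} = n := by
      rw [Fintype.card_subtype_compl, Fintype.card_subtype_eq]
      omega
    obtain ⟨r', v', hr', hrn, hv', hvk, hvz, hvr, hspan⟩ :=
      ih {i // i ≠ i0} (Λ.map (prj i0)) (tiles_prj Λ hΛ i0 h0) hcard
    -- lifts
    have hlift : ∀ k : {i // i ≠ i0}, ∃ l ∈ Λ, (∀ i : {i // i ≠ i0}, l i = v' k i) ∧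
        0 ≤ l i0 ∧ l i0 < 1 := by
      intro k
      obtain ⟨l, hl, hlk⟩ := hv' k
      refine ⟨l - ⌊l i0⌋ • (Pi.single i0 (1 : ℝ) : ι → ℝ), Λ.sub_mem hl (Λ.zsmul_mem h0 _),
        ?_, ?_, ?_⟩
      · intro i
        have : l i = v' k i := congrFun hlk i
        rw [← this]
        simp [i.2]
      · have := Int.floor_le (l i0)
        rw [Pi.sub_apply, Pi.smul_apply, Pi.single_eq_same, zsmul_eq_mul, mul_one]
        linarith
      · have := Int.lt_floor_add_one (l i0)
        rw [Pi.sub_apply, Pi.smul_apply, Pi.single_eq_same, zsmul_eq_mul, mul_one]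
        linarith
    choose w hw hwk hw0 hw1 using hlift
    let v : ι → ι → ℝ := fun k => if h : k = i0 then Pi.single i0 1 else w ⟨k, h⟩
    let r : ι → ℕ := fun k => if h : k = i0 then 0 else r' ⟨k, h⟩ + 1
    have hv0 : v i0 = Pi.single i0 1 := dif_pos rfl
    have hvne : ∀ k (h : k ≠ i0), v k = w ⟨k, h⟩ := fun k h => dif_neg h
    have hr0 : r i0 = 0 := dif_pos rfl
    have hrne : ∀ k (h : k ≠ i0), r k = r' ⟨k, h⟩ + 1 := fun k h => dif_neg h
    refine ⟨r, v, ?_, ?_, ?_, ?_, ?_, ?_, ?_⟩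
    · intro k k' h
      by_cases hk : k = i0
      · by_cases hk' : k' = i0
        · rw [hk, hk']
        · rw [hk, hr0, hrne k' hk'] at h
          omega
      · by_cases hk' : k' = i0
        · rw [hk', hr0, hrne k hk] at h
          omega
        · rw [hrne k hk, hrne k' hk'] at h
          have := hr' (by omega : r' ⟨k, hk⟩ = r' ⟨k', hk'⟩)
          simpa using this
    · intro k
      by_cases hk : k = i0
      · rw [hk, hr0]
        omega
      · rw [hrne k hk]
        have := hrn ⟨k, hk⟩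
        omega
    · intro k
      by_cases hk : k = i0
      · rw [hk, hv0]
        exact h0
      · rw [hvne k hk]
        exact hw _
    · intro k
      by_cases hk : k = i0
      · rw [hk, hv0]
        simp
      · rw [hvne k hk, ← hvk ⟨k, hk⟩]
        exact hwk ⟨k, hk⟩ ⟨k, hk⟩
    · intro k j h
      by_cases hk : k = i0
      · have hj : j ≠ i0 := by
          rintro rfl
          rw [hk] at h
          omega
        rw [hk, hv0]
        simp [hj]
      · have hj : j ≠ i0 := by
          rintro rfl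
          rw [hr0] at h
          omega
        rw [hrne k hk, hrne j hj] at h
        rw [hvne k hk, hwk ⟨k, hk⟩ ⟨j, hj⟩]
        exact hvz _ _ (by omega)
    · intro k j h
      have hk : k ≠ i0 := by
        rintro rfl
        rw [hr0] at h
        omega
      by_cases hj : j = i0
      · rw [hvne k hk, hj]
        exact ⟨hw0 _, hw1 _⟩
      · rw [hrne k hk, hrne j hj] at h
        rw [hvne k hk, hwk ⟨k, hk⟩ ⟨j, hj⟩]
        exact hvr _ _ (by omega)
    · intro l hl
      obtain ⟨c', hc'⟩ := hspan (prj i0 l) ⟨l, hl, rfl⟩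
      let m : ι → ℝ := l - ∑ k, c' k • w k
      have hm : m ∈ Λ := Λ.sub_mem hl (Λ.sum_mem fun k _ => Λ.zsmul_mem (hw k) _)
      have hmi : ∀ i, i ≠ i0 → m i = 0 := by
        intro i hi
        have h1 := congrFun hc' ⟨i, hi⟩
        simp only [Finset.sum_apply, Pi.smul_apply] at h1
        change l i = _ at h1
        simp only [m, Pi.sub_apply, Finset.sum_apply, Pi.smul_apply]
        rw [h1, sub_eq_zero]
        refine Finset.sum_congr rfl fun k _ => ?_
        rw [hwk k ⟨i, hi⟩]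
      have hm0 : m = ⌊m i0⌋ • (Pi.single i0 (1 : ℝ) : ι → ℝ) := by
        rw [← sub_eq_zero]
        apply eq_zero_of_small Λ hΛ _ (Λ.sub_mem hm (Λ.zsmul_mem h0 _))
        intro i
        by_cases hi : i = i0
        · subst hi
          have h1 := Int.floor_le (m i)
          have h2 := Int.lt_floor_add_one (m i)
          rw [Pi.sub_apply, Pi.smul_apply, Pi.single_eq_same, zsmul_eq_mul, mul_one]
          rw [abs_lt]
          constructor <;> linarith
        · simp [hmi i hi, hi]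
      refine ⟨fun k => if h : k = i0 then ⌊m i0⌋ else c' ⟨k, h⟩, ?_⟩
      have h1 : l = m + ∑ k, c' k • w k := by simp [m]
      rw [Fintype.sum_eq_add_sum_subtype_ne _ i0]
      rw [h1]
      congr 1
      · rw [hv0]
        simp only [dif_pos]
        exact hm0
      · refine Finset.sum_congr rfl fun k _ => ?_
        rw [hvne k k.2]
        simp [k.2]

end Pool.Agent.H158R2.HJ
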